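import Pool.Agent.helper56.SGE.Pos

/-!
Module R2 of the realization: rows and columns decrease weakly along the two paths.
-/

set_option autoImplicit false

namespace Pool.Agent.helper29.SGE

open Pool.Agent.helper56.SGE Vx

/-- `l` decreases weakly in `r` and lies between `lo` and `hi` -/
def Dec (r : Vx → ℝ) (l : List Vx) (hi lo : ℝ) : Prop :=
  l.Pairwise (fun u v => r v ≤ r u) ∧ ∀ v ∈ l, lo ≤ r v ∧ r v ≤ hi

lemma Dec.nil {r : Vx → ℝ} {hi lo : ℝ} : Dec r [] hi lo := ⟨List.Pairwise.nil, by simp⟩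

lemma Dec.app {r : Vx → ℝ} {l1 l2 : List Vx} {hi mid mid' lo : ℝ} (h1 : Dec r l1 hi mid)
    (h2 : Dec r l2 mid' lo) (h3 : mid' ≤ mid) (h4 : lo ≤ mid') (h5 : mid ≤ hi) :
    Dec r (l1 ++ l2) hi lo := by
  refine ⟨List.pairwise_append.2 ⟨h1.1, h2.1, fun a ha b hb => ?_⟩, fun v hv => ?_⟩
  · exact ((h2.2 b hb).2.trans h3).trans (h1.2 a ha).1
  · rcases List.mem_append.1 hv with hv | hv
    · exact ⟨(h4.trans h3).trans (h1.2 v hv).1, (h1.2 v hv).2⟩
    · exact ⟨(h2.2 v hv).1, ((h2.2 v hv).2.trans h3).trans h5⟩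

lemma Dec.const {r : Vx → ℝ} {l : List Vx} {c : ℝ} (h : ∀ v ∈ l, r v = c) : Dec r l c c :=
  ⟨List.Pairwise.imp_of_mem (fun {a b} ha hb _ => by rw [h a ha, h b hb])
    (List.pairwise_of_forall (R := fun _ _ => True) (fun _ _ => trivial)),
    fun v hv => ⟨(h v hv).ge, (h v hv).le⟩⟩

lemma Dec.weak {r : Vx → ℝ} {l : List Vx} {hi hi' lo lo' : ℝ} (h : Dec r l hi lo) (h1 : hi ≤ hi')
    (h2 : lo' ≤ lo) : Dec r l hi' lo' :=
  ⟨h.1, fun v hv => ⟨h2.trans (h.2 v hv).1, (h.2 v hv).2.trans h1⟩⟩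

lemma Dec.cons {r : Vx → ℝ} {l : List Vx} {a : Vx} {hi lo : ℝ} (h : Dec r l hi lo)
    (h1 : hi ≤ r a) (h2 : lo ≤ hi) : Dec r (a :: l) (r a) lo := by
  have := (Dec.const (r := r) (l := [a]) (c := r a) (by simp)).app h h1 h2 le_rfl
  simpa using this

section

variable {S : Slp} {D : Sk}

lemma mem_readers {i : ℕ} {k : Bool} {w : ℕ} (hw : w ∈ S.readers i k) :
    2 ≤ w ∧ w ≤ 2 * S.N + 1 ∧ S.src w = i ∧ S.kind w = k := by
  unfold Slp.readers at hw
  rw [List.mem_filter, List.mem_range] at hw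
  simp only [decide_eq_true_eq] at hw
  exact ⟨hw.2.1, by omega, hw.2.2.1, hw.2.2.2⟩

lemma row_wr {i : ℕ} {k : Bool} : Dec (D.row S) ((S.readers i k).reverse.map wr) (D.rT i k)
    (D.rT i k) := by
  apply Dec.const
  intro v hv
  rw [List.mem_map] at hv
  obtain ⟨w, hw, rfl⟩ := hv
  rw [List.mem_reverse] at hw
  obtain ⟨_, _, h1, h2⟩ := mem_readers hw
  simp [Sk.row, h1, h2]

lemma row_wm {i : ℕ} {k : Bool} : Dec (D.row S) ((S.readers i k).map wm) (D.rM i k)
    (D.rM i k) := by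
  apply Dec.const
  intro v hv
  rw [List.mem_map] at hv
  obtain ⟨w, hw, rfl⟩ := hv
  obtain ⟨_, _, h1, h2⟩ := mem_readers hw
  simp [Sk.row, h1, h2]

lemma row_wl {i : ℕ} {k : Bool} : Dec (D.row S) ((S.readers i k).reverse.map wl) (D.rB i k)
    (D.rB i k) := by
  apply Dec.const
  intro v hv
  rw [List.mem_map] at hv
  obtain ⟨w, hw, rfl⟩ := hv
  rw [List.mem_reverse] at hw
  obtain ⟨_, _, h1, h2⟩ := mem_readers hw
  simp [Sk.row, h1, h2]

lemma Y34 (hD : Sk.Ok S D) {i : ℕ} (h1 : 1 ≤ i) (h2 : i ≤ S.N) : D.Y4 i ≤ D.Y3 i := by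
  have := hD.h3_pos i h1 h2
  simp only [Sk.Y3]; linarith

lemma Y23 (hD : Sk.Ok S D) {i : ℕ} (h1 : 1 ≤ i) (h2 : i ≤ S.N) : D.Y3 i ≤ D.Y2 i := by
  have := hD.h2_pos i h1 h2
  simp only [Sk.Y2]; linarith

lemma Y12 (hD : Sk.Ok S D) {i : ℕ} (h1 : 1 ≤ i) (h2 : i ≤ S.N) : D.Y2 i ≤ D.Y1 i := by
  have := hD.h1_pos i h1 h2
  simp only [Sk.Y1]; linarith

lemma row_blk1 (h : S.WF) (hD : Sk.Ok S D) {i : ℕ} (h1 : 1 ≤ i) (h2 : i ≤ S.N) :
    Dec (D.row S) (S.blk1 i) (D.Y1 i) (D.Y4 i) := by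
  have e34 := Y34 hD h1 h2
  have e23 := Y23 hD h1 h2
  have e12 := Y12 hD h1 h2
  have hi0 : i ≠ 0 := by omega
  unfold Slp.blk1
  split_ifs with hN hf
  · subst hN
    have hg := h.last
    have j4 := hD.j4
    have j5 := hD.j5
    have j6 := hD.j6
    have e3 : D.Y3 S.N = D.Y4 S.N + D.h3 S.N := rfl
    have s1 : Dec (D.row S) [p1 S.N, A2, A1, q2 S.N] (D.Y1 S.N) (D.Y2 S.N) := by
      refine Dec.app (l1 := [p1 S.N]) (l2 := [A2, A1, q2 S.N]) (mid := D.Y1 S.N)
        (mid' := D.Y2 S.N) (Dec.const ?_) (Dec.const ?_) e12 le_rfl le_rfl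
      · simp [Sk.row]
      · simp [Sk.row]
    have s2 : Dec (D.row S) [X S.N, q3 S.N, M] (D.Y3 S.N) (D.Y3 S.N) := by
      apply Dec.const
      simp [Sk.row, hg]
    have s3 : Dec (D.row S) [J] (D.Y4 S.N + D.Jy) (D.Y4 S.N + D.Jy) := Dec.const (by simp [Sk.row])
    have s4 : Dec (D.row S) [n] (D.Y4 S.N + D.ny) (D.Y4 S.N + D.ny) := Dec.const (by simp [Sk.row])
    have s5 : Dec (D.row S) [B2, B1, Y S.N, r4 S.N] (D.Y4 S.N) (D.Y4 S.N) :=
      Dec.const (by simp [Sk.row])
    have t4 := s4.app s5 (by linarith) le_rfl le_rfl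
    have t3 := s3.app t4 (by linarith) (by linarith) le_rfl
    have t2 := s2.app t3 (by linarith) (by linarith) le_rfl
    have t1 := s1.app t2 e23 (by linarith) e12
    simpa using t1
  · have s1 : Dec (D.row S) ((S.readers i true).reverse.map wr) (D.Y1 i) (D.Y1 i) := by
      have := row_wr (S := S) (D := D) (i := i) (k := true)
      simpa [Sk.rT, hi0] using this
    have s2 : Dec (D.row S) [p1 i, q2 i, X i] (D.Y1 i) (D.Y2 i) := by
      refine Dec.app (l1 := [p1 i]) (l2 := [q2 i, X i]) (mid := D.Y1 i)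
        (mid' := D.Y2 i) (Dec.const ?_) (Dec.const ?_) e12 le_rfl le_rfl
      · simp [Sk.row]
      · simp [Sk.row, hf]
    have s3 : Dec (D.row S) ((S.readers i true).map wm) (D.Y2 i) (D.Y2 i) := by
      have := row_wm (S := S) (D := D) (i := i) (k := true)
      simpa [Sk.rM, hi0] using this
    have s4 : Dec (D.row S) ((S.readers i true).reverse.map wl) (D.Y3 i) (D.Y3 i) := by
      have := row_wl (S := S) (D := D) (i := i) (k := true)
      simpa [Sk.rB, hi0] using this
    have s5 : Dec (D.row S) [q3 i, Y i, r4 i] (D.Y3 i) (D.Y4 i) := by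
      refine Dec.app (l1 := [q3 i]) (l2 := [Y i, r4 i]) (mid := D.Y3 i)
        (mid' := D.Y4 i) (Dec.const ?_) (Dec.const ?_) e34 le_rfl le_rfl
      · simp [Sk.row]
      · simp [Sk.row]
    exact (((s1.app s2 le_rfl e12 le_rfl).app s3 le_rfl le_rfl e12).app s4 e23 le_rfl e12).app s5
      le_rfl e34 (e23.trans e12)
  · have s1 : Dec (D.row S) ((S.readers i true).reverse.map wr) (D.Y1 i) (D.Y1 i) := by
      have := row_wr (S := S) (D := D) (i := i) (k := true)
      simpa [Sk.rT, hi0] using this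
    have s2 : Dec (D.row S) [p1 i] (D.Y1 i) (D.Y1 i) := Dec.const (by simp [Sk.row])
    have s3 : Dec (D.row S) ((S.readers i false).reverse.map wr) (D.Y2 i) (D.Y2 i) := by
      have := row_wr (S := S) (D := D) (i := i) (k := false)
      simpa [Sk.rT, hi0] using this
    have s4 : Dec (D.row S) [q2 i] (D.Y2 i) (D.Y2 i) := Dec.const (by simp [Sk.row])
    have s5 : Dec (D.row S) ((S.readers i true).map wm) (D.Y2 i) (D.Y2 i) := by
      have := row_wm (S := S) (D := D) (i := i) (k := true)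
      simpa [Sk.rM, hi0] using this
    have s6 : Dec (D.row S) ((S.readers i true).reverse.map wl) (D.Y3 i) (D.Y3 i) := by
      have := row_wl (S := S) (D := D) (i := i) (k := true)
      simpa [Sk.rB, hi0] using this
    have s7 : Dec (D.row S) [X i, q3 i] (D.Y3 i) (D.Y3 i) := Dec.const (by simp [Sk.row, hf])
    have s8 : Dec (D.row S) ((S.readers i false).map wm) (D.Y3 i) (D.Y3 i) := by
      have := row_wm (S := S) (D := D) (i := i) (k := false)
      simpa [Sk.rM, hi0] using this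
    have s9 : Dec (D.row S) ((S.readers i false).reverse.map wl) (D.Y4 i) (D.Y4 i) := by
      have := row_wl (S := S) (D := D) (i := i) (k := false)
      simpa [Sk.rB, hi0] using this
    have s10 : Dec (D.row S) [Y i, r4 i] (D.Y4 i) (D.Y4 i) := Dec.const (by simp [Sk.row])
    have e13 := e23.trans e12
    exact ((((((((s1.app s2 le_rfl le_rfl le_rfl).app s3 e12 le_rfl le_rfl).app s4 le_rfl le_rfl
      e12).app s5 le_rfl le_rfl e12).app s6 e23 le_rfl e12).app s7 le_rfl le_rfl e13).app s8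
      le_rfl le_rfl e13).app s9 e34 le_rfl e13).app s10 le_rfl le_rfl (e34.trans e13)

lemma top_succ (j : ℕ) : D.top (j + 1) = D.Y1 (j + 1) := by
  simp only [Sk.top, Sk.Y1, Sk.Y2, Sk.Y3, Sk.Y4, Nat.add_sub_cancel]

lemma tt_pos (hD : Sk.Ok S D) : 1 < D.tt := by
  have h1 := hD.c1
  have h2 := hD.c2
  have h4 := hD.c4
  nlinarith

lemma mm_le_tt (hD : Sk.Ok S D) : D.mm ≤ D.tt := by
  have h1 := hD.c1
  have h2 := hD.c2
  have h4 := hD.c4
  nlinarith

lemma le_top (hD : Sk.Ok S D) : ∀ i, i ≤ S.N → D.tt ≤ D.top i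
  | 0, _ => le_rfl
  | j + 1, h => by
    have := le_top hD j (by omega)
    have a1 := hD.h1_pos (j + 1) (by omega) h
    have a2 := hD.h2_pos (j + 1) (by omega) h
    have a3 := hD.h3_pos (j + 1) (by omega) h
    simp only [Sk.top]
    linarith

lemma row_blks1 (h : S.WF) (hD : Sk.Ok S D) : ∀ i, i ≤ S.N →
    Dec (D.row S) (S.blks1 i) (D.top i) D.tt
  | 0, _ => by
    have := row_wr (S := S) (D := D) (i := 0) (k := false)
    simpa [Sk.rT, Slp.blks1, Sk.top] using this
  | j + 1, hj => by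
    have ih := row_blks1 h hD j (by omega)
    have b := row_blk1 h hD (i := j + 1) (by omega) hj
    rw [← top_succ] at b
    have l := le_top hD j (by omega)
    have e4 : D.Y4 (j + 1) = D.top j + 1 := by simp [Sk.Y4]
    have := le_top hD (j + 1) hj
    have e34 := Y34 hD (i := j + 1) (by omega) hj
    have e23 := Y23 hD (i := j + 1) (by omega) hj
    have e12 := Y12 hD (i := j + 1) (by omega) hj
    rw [← top_succ] at e12
    exact b.app ih (by linarith) l (by linarith)

lemma row_con1 (hD : Sk.Ok S D) : Dec (D.row S) S.con1 D.tt (1 / 2) := by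
  have h1 := hD.c1
  have h2 := mm_le_tt hD
  have s1 : Dec (D.row S) [p0, q0, q0p] D.tt D.mm := by
    refine Dec.app (l1 := [p0]) (l2 := [q0, q0p]) (mid := D.tt)
        (mid' := D.mm) (Dec.const ?_) (Dec.const ?_) h2 le_rfl le_rfl
    · simp [Sk.row]
    · simp [Sk.row]
  have s2 : Dec (D.row S) ((S.readers 0 false).map wm) D.mm D.mm := by
    have := row_wm (S := S) (D := D) (i := 0) (k := false)
    simpa [Sk.rM] using this
  have s3 : Dec (D.row S) [s0] (1 + (D.mm - 1) * 3 / 4) (1 + (D.mm - 1) * 3 / 4) :=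
    Dec.const (by simp [Sk.row])
  have s4 : Dec (D.row S) ((S.readers 0 false).reverse.map wl) 1 1 := by
    have := row_wl (S := S) (D := D) (i := 0) (k := false)
    simpa [Sk.rB] using this
  have s5 : Dec (D.row S) [r0, anc] 1 (1 / 2) := by
    refine Dec.app (l1 := [r0]) (l2 := [anc]) (mid := 1)
        (mid' := 1 / 2) (Dec.const ?_) (Dec.const ?_) (by norm_num) le_rfl le_rfl
    · simp [Sk.row]
    · simp [Sk.row]
  exact (((s1.app s2 le_rfl le_rfl h2).app s3 (by linarith) le_rfl h2).app s4 (by linarith) le_rfl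
    (by linarith)).app s5 le_rfl (by norm_num) (by linarith)

lemma row_anch : ∀ N, Dec (D.row S) (Slp.anch N) (1 / 2) (1 / 2)
  | 0 => Dec.nil
  | j + 1 => by
    have ih := row_anch j
    have : Dec (D.row S) [a5 (j + 1), a3 (j + 1)] (1 / 2) (1 / 2) := Dec.const (by simp [Sk.row])
    exact this.app ih le_rfl le_rfl le_rfl

lemma row_path1 (h : S.WF) (hD : Sk.Ok S D) :
    Dec (D.row S) S.path1 (D.top S.N) (1 / 2) := by
  have h1 := tt_pos hD
  exact ((row_blks1 h hD S.N le_rfl).app (row_con1 hD) le_rfl (by linarith)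
    (le_top hD S.N le_rfl)).app (row_anch S.N) le_rfl le_rfl (by
      have := le_top hD S.N le_rfl
      linarith)

/-! ### columns -/

lemma right_pos (hD : Sk.Ok S D) : ∀ i, i ≤ S.N → D.x2 ≤ D.right i
  | 0, _ => le_rfl
  | j + 1, h => by
    have := right_pos hD j (by omega)
    have a1 := hD.uK_pos (j + 1) (by omega) h
    have a2 := hD.uL_pos (j + 1) (by omega) h
    simp only [Sk.right]
    linarith

lemma right_succ (j : ℕ) : D.right (j + 1) = D.X5 (j + 1) := by
  simp only [Sk.right, Sk.X5, Sk.X4, Sk.X3, Sk.X2, Sk.X1, Nat.add_sub_cancel]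

lemma x2_gt (hD : Sk.Ok S D) : 1 < D.x2 := by
  have h1 := hD.c1
  have h2 := hD.c2
  linarith

lemma col_blk2 (hD : Sk.Ok S D) {j : ℕ} (h1 : 1 ≤ j) (h2 : j ≤ S.N) :
    Dec (D.col S) (S.blk2 j) (D.X5 j) (D.X1 j) := by
  have a1 := hD.uK_pos j h1 h2
  have a2 := hD.uL_pos j h1 h2
  have e5 : D.X4 j ≤ D.X5 j := by simp only [Sk.X5]; linarith
  have e4 : D.X3 j ≤ D.X4 j := by simp only [Sk.X4]; linarith
  have e3 : D.X2 j ≤ D.X3 j := by simp only [Sk.X3]; linarith
  have e2 : D.X1 j ≤ D.X2 j := by simp only [Sk.X2]; linarith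
  have o1 : (2 * j + 1) % 2 = 1 := by omega
  have o2 : (2 * j + 1) / 2 = j := by omega
  have o3 : (2 * j) % 2 = 0 := by omega
  have o4 : (2 * j) / 2 = j := by omega
  have s1 : Dec (D.col S) (S.c5 j) (D.X5 j) (D.X5 j) := by
    apply Dec.const
    unfold Slp.c5
    cases hty : S.ty j <;> simp [Sk.col, hty]
  have s2 : Dec (D.col S) [a5 j, wr (2 * j + 1), wm (2 * j + 1), S.c4 j] (D.X5 j) (D.X4 j) := by
    refine Dec.app (l1 := [a5 j, wr (2 * j + 1)]) (l2 := [wm (2 * j + 1), S.c4 j]) (mid := D.X5 j)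
        (mid' := D.X4 j) (Dec.const ?_) (Dec.const ?_) e5 le_rfl le_rfl
    · simp [Sk.col, o2]
    · unfold Slp.c4
      cases hty : S.ty j <;> simp [Sk.col, o2, hty]
  have s3 : Dec (D.col S) (S.c3 j) (D.X3 j) (D.X3 j) := by
    apply Dec.const
    unfold Slp.c3
    cases hty : S.ty j <;> simp [Sk.col, hty]
  have s4 : Dec (D.col S) [wl (2 * j + 1), a3 j, wr (2 * j)] (D.X3 j) (D.X3 j) := by
    apply Dec.const
    simp [Sk.col, o2]
  have s5 : Dec (D.col S) [wm (2 * j), S.c2 j] (D.X2 j) (D.X2 j) := by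
    apply Dec.const
    unfold Slp.c2
    cases hty : S.ty j <;> simp [Sk.col, hty]
  have s6 : Dec (D.col S) [r4 j, wl (2 * j)] (D.X1 j) (D.X1 j) := by
    apply Dec.const
    simp [Sk.col]
  have s7 := (s4.app s5 e3 le_rfl le_rfl).app s6 e2 le_rfl e3
  have s8 := ((s1.app s2 le_rfl e5 le_rfl).app s3 e4 le_rfl e5).app s7 le_rfl (e2.trans e3)
    (e4.trans e5)
  have : S.blk2 j = S.c5 j ++ [a5 j, wr (2 * j + 1), wm (2 * j + 1), S.c4 j] ++ S.c3 j ++
      ([wl (2 * j + 1), a3 j, wr (2 * j)] ++ [wm (2 * j), S.c2 j] ++ [r4 j, wl (2 * j)]) := rfl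
  rw [this]
  exact s8

lemma col_blks2 (hD : Sk.Ok S D) : ∀ i, i ≤ S.N →
    Dec (D.col S) (S.blks2 i) (D.right i) D.x2
  | 0, _ => Dec.nil
  | j + 1, hj => by
    have ih := col_blks2 hD j (by omega)
    have b := col_blk2 hD (j := j + 1) (by omega) hj
    rw [← right_succ] at b
    have l := right_pos hD j (by omega)
    have e1 : D.X1 (j + 1) = D.right j + 1 := by simp [Sk.X1]
    have a1 := hD.uK_pos (j + 1) (by omega) hj
    have a2 := hD.uL_pos (j + 1) (by omega) hj
    have e2 : D.right (j + 1) = D.right j + 1 + 1 + D.uK (j + 1) + 1 + D.uL (j + 1) := rfl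
    exact b.app ih (by linarith) l (by linarith)

lemma col_path2 (hD : Sk.Ok S D) : Dec (D.col S) S.path2 (D.right S.N + 3) 1 := by
  have hx := x2_gt hD
  have hr := right_pos hD S.N le_rfl
  have s1 : Dec (D.col S) [anc, B2, A2] (D.right S.N + 3) (D.right S.N + 3) :=
    Dec.const (by simp [Sk.col])
  have s2 : Dec (D.col S) [M] (D.right S.N + 2) (D.right S.N + 2) :=
    Dec.const (by simp [Sk.col])
  have s3 : Dec (D.col S) [A1, B1] (D.right S.N + 1) (D.right S.N + 1) :=
    Dec.const (by simp [Sk.col])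
  have s4 := col_blks2 hD S.N le_rfl
  have s5 : Dec (D.col S) [p0, q0p] D.x2 D.x2 := Dec.const (by simp [Sk.col])
  have s6 : Dec (D.col S) [s0] (1 + (D.x2 - 1) / 4) (1 + (D.x2 - 1) / 4) :=
    Dec.const (by simp [Sk.col])
  have s7 : Dec (D.col S) [r0, q0] 1 1 := Dec.const (by simp [Sk.col])
  have t1 := (s1.app s2 (by linarith) le_rfl le_rfl).app s3 (by linarith) le_rfl (by linarith)
  have t2 := t1.app s4 (by linarith) hr (by linarith)
  have t3 := (s5.app s6 (by linarith) le_rfl le_rfl).app s7 (by linarith) le_rfl (by linarith)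
  exact t2.app t3 le_rfl (by linarith) (by linarith)

lemma col_pos (hD : Sk.Ok S D) (v : Vx) (hv : S.Valid v) (h1 : v ≠ O) (h2 : v ≠ H) (h3 : v ≠ V) :
    0 < D.col S v := by
  have hx := x2_gt hD
  have hr := right_pos hD S.N le_rfl
  have key : ∀ j, 1 ≤ j → j ≤ S.N → 0 < D.X1 j ∧ 0 < D.X2 j ∧ 0 < D.X3 j ∧ 0 < D.X4 j ∧
      0 < D.X5 j := by
    intro j hj hj'
    have := right_pos hD (j - 1) (by omega)
    have a1 := hD.uK_pos j hj hj'
    have a2 := hD.uL_pos j hj hj'
    simp only [Sk.X5, Sk.X4, Sk.X3, Sk.X2, Sk.X1]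
    refine ⟨?_, ?_, ?_, ?_, ?_⟩ <;> linarith
  have j1 := hD.j1
  have j2 := hD.j2
  cases v with
  | O => exact absurd rfl h1
  | H => exact absurd rfl h2
  | V => exact absurd rfl h3
  | p0 => simp only [Sk.col]; linarith
  | q0 => simp only [Sk.col]; norm_num
  | q0p => simp only [Sk.col]; linarith
  | s0 => simp only [Sk.col]; linarith
  | r0 => simp only [Sk.col]; norm_num
  | A1 => simp only [Sk.col]; linarith
  | A2 => simp only [Sk.col]; linarith
  | B1 => simp only [Sk.col]; linarith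
  | B2 => simp only [Sk.col]; linarith
  | M => simp only [Sk.col]; linarith
  | J => simp only [Sk.col]; linarith
  | n => simp only [Sk.col]; linarith
  | anc => simp only [Sk.col]; linarith
  | p1 j => exact (key j hv.1 hv.2).2.2.1
  | q2 j =>
    obtain ⟨k1, k2, k3, k4, k5⟩ := key j hv.1 hv.2
    simp only [Sk.col]
    cases S.ty j <;> assumption
  | X j =>
    obtain ⟨k1, k2, k3, k4, k5⟩ := key j hv.1 hv.2
    simp only [Sk.col]
    cases S.ty j <;> assumption
  | q3 j =>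
    obtain ⟨k1, k2, k3, k4, k5⟩ := key j hv.1 hv.2
    simp only [Sk.col]
    cases S.ty j <;> assumption
  | r4 j => exact (key j hv.1 hv.2).1
  | Y j => exact (key j hv.1 hv.2).2.2.2.2
  | a5 j => exact (key j hv.1 hv.2).2.2.2.2
  | a3 j => exact (key j hv.1 hv.2).2.2.1
  | wr w =>
    have hw : 2 ≤ w ∧ w ≤ 2 * S.N + 1 := hv
    obtain ⟨k1, k2, k3, k4, k5⟩ := key (w / 2) (by omega) (by omega)
    simp only [Sk.col]
    split_ifs <;> assumption
  | wm w =>
    have hw : 2 ≤ w ∧ w ≤ 2 * S.N + 1 := hv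
    obtain ⟨k1, k2, k3, k4, k5⟩ := key (w / 2) (by omega) (by omega)
    simp only [Sk.col]
    split_ifs <;> assumption
  | wl w =>
    have hw : 2 ≤ w ∧ w ≤ 2 * S.N + 1 := hv
    obtain ⟨k1, k2, k3, k4, k5⟩ := key (w / 2) (by omega) (by omega)
    simp only [Sk.col]
    split_ifs <;> assumption

/-- valid and not a corner -/
def Inn (S : Slp) (v : Vx) : Prop := S.Valid v ∧ v ≠ O ∧ v ≠ H ∧ v ≠ V

lemma inn_readers {c : ℕ → Vx} (hc : c = wr ∨ c = wm ∨ c = wl) {i : ℕ} {k : Bool} :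
    (∀ v ∈ (S.readers i k).map c, Inn S v) ∧ ∀ v ∈ (S.readers i k).reverse.map c, Inn S v := by
  constructor
  · intro v hv
    rw [List.mem_map] at hv
    obtain ⟨w, hw, rfl⟩ := hv
    obtain ⟨a, b, _, _⟩ := mem_readers hw
    rcases hc with rfl | rfl | rfl <;> exact ⟨⟨a, b⟩, by simp, by simp, by simp⟩
  · intro v hv
    rw [List.mem_map] at hv
    obtain ⟨w, hw, rfl⟩ := hv
    rw [List.mem_reverse] at hw
    obtain ⟨a, b, _, _⟩ := mem_readers hw
    rcases hc with rfl | rfl | rfl <;> exact ⟨⟨a, b⟩, by simp, by simp, by simp⟩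

lemma inn_blk1 {i : ℕ} (h1 : 1 ≤ i) (h2 : i ≤ S.N) : ∀ v ∈ S.blk1 i, Inn S v := by
  intro v hv
  unfold Slp.blk1 at hv
  have a1 := fun k => inn_readers (S := S) (c := wr) (Or.inl rfl) (i := i) (k := k)
  have a2 := fun k => inn_readers (S := S) (c := wm) (Or.inr (Or.inl rfl)) (i := i) (k := k)
  have a3 := fun k => inn_readers (S := S) (c := wl) (Or.inr (Or.inr rfl)) (i := i) (k := k)
  split_ifs at hv with hN hf
  · simp only [List.mem_cons, List.not_mem_nil, or_false] at hv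
    rcases hv with rfl | rfl | rfl | rfl | rfl | rfl | rfl | rfl | rfl | rfl | rfl | rfl | rfl <;>
      refine ⟨?_, by simp, by simp, by simp⟩ <;> simp only [Slp.Valid] <;> omega
  · rw [List.mem_append, List.mem_append, List.mem_append, List.mem_append] at hv
    rcases hv with (((hv | hv) | hv) | hv) | hv
    · exact (a1 true).2 v hv
    · simp only [List.mem_cons, List.not_mem_nil, or_false] at hv
      rcases hv with rfl | rfl | rfl <;> exact ⟨⟨h1, h2⟩, by simp, by simp, by simp⟩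
    · exact (a2 true).1 v hv
    · exact (a3 true).2 v hv
    · simp only [List.mem_cons, List.not_mem_nil, or_false] at hv
      rcases hv with rfl | rfl | rfl <;> exact ⟨⟨h1, h2⟩, by simp, by simp, by simp⟩
  · rw [List.mem_append, List.mem_append, List.mem_append, List.mem_append, List.mem_append,
      List.mem_append, List.mem_append, List.mem_append, List.mem_append] at hv
    rcases hv with ((((((((hv | hv) | hv) | hv) | hv) | hv) | hv) | hv) | hv) | hv
    · exact (a1 true).2 v hv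
    · simp only [List.mem_cons, List.not_mem_nil, or_false] at hv
      subst hv; exact ⟨⟨h1, h2⟩, by simp, by simp, by simp⟩
    · exact (a1 false).2 v hv
    · simp only [List.mem_cons, List.not_mem_nil, or_false] at hv
      subst hv; exact ⟨⟨h1, h2⟩, by simp, by simp, by simp⟩
    · exact (a2 true).1 v hv
    · exact (a3 true).2 v hv
    · simp only [List.mem_cons, List.not_mem_nil, or_false] at hv
      rcases hv with rfl | rfl <;> exact ⟨⟨h1, h2⟩, by simp, by simp, by simp⟩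
    · exact (a2 false).1 v hv
    · exact (a3 false).2 v hv
    · simp only [List.mem_cons, List.not_mem_nil, or_false] at hv
      rcases hv with rfl | rfl <;> exact ⟨⟨h1, h2⟩, by simp, by simp, by simp⟩

lemma inn_blks1 : ∀ i, i ≤ S.N → ∀ v ∈ S.blks1 i, Inn S v
  | 0, _, v, hv => (inn_readers (S := S) (c := wr) (Or.inl rfl) (i := 0) (k := false)).2 v hv
  | j + 1, hj, v, hv => by
    rw [Slp.blks1, List.mem_append] at hv
    rcases hv with hv | hv
    · exact inn_blk1 (by omega) hj v hv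
    · exact inn_blks1 j (by omega) v hv

lemma inn_anch : ∀ i, i ≤ S.N → ∀ v ∈ Slp.anch i, Inn S v
  | 0, _, v, hv => by simp [Slp.anch] at hv
  | j + 1, hj, v, hv => by
    rw [Slp.anch, List.mem_append] at hv
    rcases hv with hv | hv
    · simp only [List.mem_cons, List.not_mem_nil, or_false] at hv
      rcases hv with rfl | rfl <;> exact ⟨⟨by omega, hj⟩, by simp, by simp, by simp⟩
    · exact inn_anch j (by omega) v hv

lemma inn_path1 : ∀ v ∈ S.path1, Inn S v := by
  intro v hv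
  unfold Slp.path1 Slp.con1 at hv
  simp only [List.mem_append] at hv
  rcases hv with (hv | ((((hv | hv) | hv) | hv) | hv)) | hv
  · exact inn_blks1 S.N le_rfl v hv
  · simp only [List.mem_cons, List.not_mem_nil, or_false] at hv
    rcases hv with rfl | rfl | rfl <;> exact ⟨trivial, by simp, by simp, by simp⟩
  · exact (inn_readers (S := S) (c := wm) (Or.inr (Or.inl rfl)) (i := 0) (k := false)).1 v hv
  · simp only [List.mem_cons, List.not_mem_nil, or_false] at hv
    subst hv; exact ⟨trivial, by simp, by simp, by simp⟩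
  · exact (inn_readers (S := S) (c := wl) (Or.inr (Or.inr rfl)) (i := 0) (k := false)).2 v hv
  · simp only [List.mem_cons, List.not_mem_nil, or_false] at hv
    rcases hv with rfl | rfl <;> exact ⟨trivial, by simp, by simp, by simp⟩
  · exact inn_anch S.N le_rfl v hv

end

theorem R2a (S : Slp) (h : S.WF) (D : Sk) (hD : Sk.Ok S D) :
    (∀ v ∈ S.path1, 0 < D.row S v ∧ 0 < D.col S v) ∧
    S.path1.Pairwise (fun u v => D.row S v ≤ D.row S u) := by
  have hP := row_path1 h hD
  refine ⟨fun v hv => ⟨?_, ?_⟩, hP.1⟩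
  · have := (hP.2 v hv).1
    linarith
  · obtain ⟨a, b, c, d⟩ := inn_path1 v hv
    exact col_pos hD v a b c d

theorem R2b (S : Slp) (_h : S.WF) (D : Sk) (hD : Sk.Ok S D) :
    S.path2.Pairwise (fun u v => D.col S v ≤ D.col S u) := (col_path2 hD).1

end Pool.Agent.helper29.SGE
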