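import Pool.Agent.helper56.SGE.Pos

/-!
Module R5 of the realization: perturbation.
-/

set_option autoImplicit false

namespace Pool.Agent.helper29.SGE

open Pool.Agent.helper56.SGE Vx Filter Topology

/-- perturbed columns -/
noncomputable def xe (S : Slp) (col : Vx → ℝ) (ε : ℝ) (v : Vx) : ℝ :=
  col v - ε * (S.path2.idxOf v : ℝ)

/-- perturbed rows -/
noncomputable def ye (S : Slp) (row : Vx → ℝ) (ε : ℝ) (v : Vx) : ℝ :=
  row v - ε * (S.path1.idxOf v : ℝ)

lemma hom_cont (S : Slp) (row col : Vx → ℝ) (v : Vx) :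
    Continuous fun ε => hom oF (xe S col ε) (ye S row ε) v := by
  unfold hom
  split_ifs
  · exact continuous_const
  · exact continuous_const
  · exact continuous_const
  · unfold xe ye
    fun_prop

lemma det3_cont {a b c : ℝ → ℝ × ℝ × ℝ} (ha : Continuous a) (hb : Continuous b)
    (hc : Continuous c) : Continuous fun ε => det3 (a ε) (b ε) (c ε) := by
  unfold det3
  fun_prop

lemma ev_face (S : Slp) (row col : Vx → ℝ) (a b c : Vx)
    (h : 0 < det3 (hom oF col row a) (hom oF col row b) (hom oF col row c)) :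
    ∀ᶠ ε in 𝓝[>] (0 : ℝ), 0 < det3 (hom oF (xe S col ε) (ye S row ε) a)
      (hom oF (xe S col ε) (ye S row ε) b) (hom oF (xe S col ε) (ye S row ε) c) := by
  have hc := det3_cont (hom_cont S row col a) (hom_cont S row col b) (hom_cont S row col c)
  have hx : xe S col 0 = col := by funext v; simp [xe]
  have hy : ye S row 0 = row := by funext v; simp [ye]
  have h0 : 0 < (fun ε => det3 (hom oF (xe S col ε) (ye S row ε) a)
      (hom oF (xe S col ε) (ye S row ε) b) (hom oF (xe S col ε) (ye S row ε) c)) 0 := by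
    simp only [hx, hy]
    exact h
  exact (hc.continuousAt.eventually (lt_mem_nhds h0)).filter_mono nhdsWithin_le_nhds

lemma mem_pairs_split {α : Type*} : ∀ (l : List α) (e : α × α), e ∈ pairs l →
    ∃ s t : List α, l = s ++ e.1 :: e.2 :: t
  | [], e, h => by simp [pairs] at h
  | [a], e, h => by simp [pairs] at h
  | a :: b :: l, e, h => by
    simp only [pairs, List.tail_cons, List.zip_cons_cons, List.mem_cons] at h
    rcases h with rfl | h
    · exact ⟨[], l, rfl⟩
    · have h' : e ∈ pairs (b :: l) := h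
      obtain ⟨s, t, hst⟩ := mem_pairs_split (b :: l) e h'
      exact ⟨a :: s, t, by rw [hst]; rfl⟩

lemma idxOf_lt {α : Type*} [DecidableEq α] (s t : List α) (a b : α)
    (hn : (s ++ a :: b :: t).Nodup) :
    (s ++ a :: b :: t).idxOf a < (s ++ a :: b :: t).idxOf b := by
  have hn' := hn
  rw [List.nodup_append] at hn
  obtain ⟨h1, h2, h3⟩ := hn
  have ha : a ∉ s := fun h => h3 a h a (by simp) rfl
  have hb : b ∉ s := fun h => h3 b h b (by simp) rfl
  have hab : a ≠ b := by
    rintro rfl
    simp at h2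
  rw [List.idxOf_append_of_notMem ha, List.idxOf_append_of_notMem hb]
  rw [List.idxOf_cons_self, List.idxOf_cons_ne _ hab, List.idxOf_cons_self]
  omega

/-- The analysis of the fan faces: for consecutive vertices of `a0 :: l ++ [O]`. -/
lemma fan {l : List Vx} {a0 : Vx} {e : Vx × Vx} (h : e ∈ pairs (a0 :: l ++ [O])) :
    (e = (a0, O) ∧ l = []) ∨ (∃ t, l = e.2 :: t ∧ e.1 = a0) ∨ (∃ s, l = s ++ [e.1] ∧ e.2 = O) ∨
      ∃ s t, l = s ++ e.1 :: e.2 :: t := by
  obtain ⟨s, t, hst⟩ := mem_pairs_split _ _ h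
  obtain ⟨a, b⟩ := e
  simp only at hst
  rcases s with _ | ⟨c, s⟩
  · simp only [List.nil_append, List.cons_append, List.cons.injEq] at hst
    obtain ⟨rfl, hst⟩ := hst
    rcases l with _ | ⟨d, l⟩
    · simp only [List.nil_append, List.cons.injEq] at hst
      obtain ⟨rfl, _⟩ := hst
      left; simp
    · simp only [List.cons_append, List.cons.injEq] at hst
      obtain ⟨rfl, _⟩ := hst
      right; left; exact ⟨l, rfl, rfl⟩
  · simp only [List.cons_append, List.cons.injEq] at hst
    obtain ⟨rfl, hst⟩ := hst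
    rcases List.eq_nil_or_concat t with rfl | ⟨t, z, rfl⟩
    · have h2 : l ++ [O] = (s ++ [a]) ++ [b] := by rw [hst]; simp
      obtain ⟨h3, h4⟩ := List.append_inj' h2 rfl
      simp only [List.cons.injEq, and_true] at h4
      right; right; left
      exact ⟨s, h3, h4.symm⟩
    · have h2 : l ++ [O] = (s ++ a :: b :: t) ++ [z] := by rw [hst]; simp
      obtain ⟨h3, h4⟩ := List.append_inj' h2 rfl
      right; right; right
      exact ⟨s, t, h3⟩

theorem R5 (S : Slp) (_h : S.WF)
    (hp1 : S.path1.Nodup ∧ ∀ v, v ∈ S.path1 ↔ S.Valid v ∧ v ≠ O ∧ v ≠ H ∧ v ≠ V)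
    (hp2 : S.path2.Nodup ∧ ∀ v, v ∈ S.path2 ↔ S.Valid v ∧ v ≠ O ∧ v ≠ H ∧ v ≠ V ∧ v ≠ J ∧ v ≠ n)
    (row col : Vx → ℝ) (h0 : ∀ v ∈ S.path1, 0 < row v ∧ 0 < col v)
    (h1 : S.path1.Pairwise (fun u v => row v ≤ row u))
    (h2 : S.path2.Pairwise (fun u v => col v ≤ col u))
    (h3 : ∀ m ∈ S.path1, 0 < det3 (hom oF col row (S.L1 m)) (hom oF col row (S.R1 m))
      (hom oF col row m))
    (h4 : ∀ m ∈ S.path2, m ≠ A1 → 0 < det3 (hom oF col row (S.L2 m)) (hom oF col row m)
        (hom oF col row (S.R2 m)))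
    (h5 : ∀ f ∈ Slp.five, 0 < det3 (hom oF col row f.1) (hom oF col row f.2.1)
      (hom oF col row f.2.2)) : Real2 S.vs oF S.faces1 S.faces2 := by
  classical
  have hsub : ∀ v ∈ S.path2, v ∈ S.path1 := fun v hv =>
    (hp1.2 v).2 ⟨((hp2.2 v).1 hv).1, ((hp2.2 v).1 hv).2.1, ((hp2.2 v).1 hv).2.2.1,
      ((hp2.2 v).1 hv).2.2.2.1⟩
  -- positivity
  have e0 : ∀ᶠ ε in 𝓝[>] (0 : ℝ), ∀ v ∈ {v | v ∈ S.path1}, 0 < xe S col ε v ∧ 0 < ye S row ε v := by
    rw [Filter.eventually_all_finite (List.finite_toSet _)]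
    intro v hv
    obtain ⟨hr, hc⟩ := h0 v hv
    have c1 : Continuous fun ε => xe S col ε v := by unfold xe; fun_prop
    have c2 : Continuous fun ε => ye S row ε v := by unfold ye; fun_prop
    have i1 : 0 < (fun ε => xe S col ε v) 0 := by simpa [xe] using hc
    have i2 : 0 < (fun ε => ye S row ε v) 0 := by simpa [ye] using hr
    exact ((c1.continuousAt.eventually (lt_mem_nhds i1)).and
      (c2.continuousAt.eventually (lt_mem_nhds i2))).filter_mono nhdsWithin_le_nhds
  have e3 : ∀ᶠ ε in 𝓝[>] (0 : ℝ), ∀ m ∈ {v | v ∈ S.path1},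
      0 < det3 (hom oF (xe S col ε) (ye S row ε) (S.L1 m))
        (hom oF (xe S col ε) (ye S row ε) (S.R1 m)) (hom oF (xe S col ε) (ye S row ε) m) := by
    rw [Filter.eventually_all_finite (List.finite_toSet _)]
    intro m hm
    exact ev_face S row col _ _ _ (h3 m hm)
  have e4 : ∀ᶠ ε in 𝓝[>] (0 : ℝ), ∀ m ∈ {v | v ∈ S.path2}, m ≠ A1 →
      0 < det3 (hom oF (xe S col ε) (ye S row ε) (S.L2 m))
        (hom oF (xe S col ε) (ye S row ε) m) (hom oF (xe S col ε) (ye S row ε) (S.R2 m)) := by
    rw [Filter.eventually_all_finite (List.finite_toSet _)]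
    intro m hm
    by_cases hA : m = A1
    · exact Filter.Eventually.of_forall fun ε hne => absurd hA hne
    · exact (ev_face S row col _ _ _ (h4 m hm hA)).mono fun ε h _ => h
  have e5 : ∀ᶠ ε in 𝓝[>] (0 : ℝ), ∀ f ∈ {f | f ∈ Slp.five},
      0 < det3 (hom oF (xe S col ε) (ye S row ε) f.1)
        (hom oF (xe S col ε) (ye S row ε) f.2.1) (hom oF (xe S col ε) (ye S row ε) f.2.2) := by
    rw [Filter.eventually_all_finite (List.finite_toSet _)]
    intro f hf
    exact ev_face S row col _ _ _ (h5 f hf)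
  obtain ⟨ε, ⟨⟨⟨⟨hpos, g0⟩, g3⟩, g4⟩, g5⟩⟩ :=
    ((((eventually_mem_nhdsWithin (a := (0 : ℝ)) (s := Set.Ioi 0)).and e0).and e3).and e4
      |>.and e5).exists
  have hε : 0 < ε := hpos
  simp only [Set.mem_ofPred_eq] at g0 g3 g4 g5
  -- strict monotonicity
  have hy : ∀ s t a b, S.path1 = s ++ a :: b :: t → ye S row ε b < ye S row ε a := by
    intro s t a b hs
    have hr : row b ≤ row a := by
      have h1' := h1
      rw [hs, List.pairwise_append] at h1'
      have := h1'.2.1
      rw [List.pairwise_cons] at this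
      exact this.1 b (by simp)
    have hn := hp1.1
    rw [hs] at hn
    have hi := idxOf_lt s t a b hn
    rw [← hs] at hi
    have hi' : ((S.path1.idxOf a : ℕ) : ℝ) < (S.path1.idxOf b : ℕ) := by exact_mod_cast hi
    unfold ye
    nlinarith
  have hx : ∀ s t a b, S.path2 = s ++ a :: b :: t → xe S col ε b < xe S col ε a := by
    intro s t a b hs
    have hr : col b ≤ col a := by
      have h1' := h2
      rw [hs, List.pairwise_append] at h1'
      have := h1'.2.1
      rw [List.pairwise_cons] at this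
      exact this.1 b (by simp)
    have hn := hp2.1
    rw [hs] at hn
    have hi := idxOf_lt s t a b hn
    rw [← hs] at hi
    have hi' : ((S.path2.idxOf a : ℕ) : ℝ) < (S.path2.idxOf b : ℕ) := by exact_mod_cast hi
    unfold xe
    nlinarith
  have homv : ∀ v ∈ S.path1, hom oF (xe S col ε) (ye S row ε) v =
      (1, xe S col ε v, ye S row ε v) := by
    intro v hv
    obtain ⟨_, k1, k2, k3⟩ := (hp1.2 v).1 hv
    simp [hom, oF, k1, k2, k3]
  have homO : hom oF (xe S col ε) (ye S row ε) O = (1, 0, 0) := by simp [hom, oF]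
  have homH : hom oF (xe S col ε) (ye S row ε) H = (0, 1, 0) := by simp [hom, oF]
  have homV : hom oF (xe S col ε) (ye S row ε) V = (0, 0, 1) := by simp [hom, oF]
  refine ⟨xe S col ε, ye S row ε, ?_, ?_, ?_⟩
  · intro v hv hvo
    have hv1 : v ∈ S.path1 := by
      simp only [Slp.vs, List.mem_toFinset, List.mem_cons] at hv
      simp only [Face.verts, oF, Finset.mem_insert, Finset.mem_singleton, not_or] at hvo
      tauto
    exact g0 v hv1
  · intro f hf
    rw [List.mem_append] at hf
    rcases hf with hf | hf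
    · unfold Slp.faces1 at hf
      rw [List.mem_append, List.mem_map, List.mem_map] at hf
      rcases hf with ⟨m, hm, rfl⟩ | ⟨e, he, rfl⟩
      · exact g3 m hm
      · simp only
        rcases fan he with ⟨rfl, _⟩ | ⟨t, ht, hV⟩ | ⟨s, hs, hO⟩ | ⟨s, t, hs⟩
        · rw [homH, homV, homO]; norm_num [det3]
        · have hm : e.2 ∈ S.path1 := by rw [ht]; simp
          rw [homH, hV, homV, homv _ hm]; norm_num [det3]
        · have hm : e.1 ∈ S.path1 := by rw [hs]; simp
          rw [homH, hO, homO, homv _ hm]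
          have := (g0 _ hm).2
          simp only [det3]; linarith
        · have hm : e.1 ∈ S.path1 := by rw [hs]; simp
          have hm2 : e.2 ∈ S.path1 := by rw [hs]; simp
          rw [homH, homv _ hm, homv _ hm2]
          have := hy s t _ _ hs
          simp only [det3]; linarith
    · unfold Slp.faces2 at hf
      rw [List.mem_append, List.mem_append, List.mem_map, List.mem_map] at hf
      rcases hf with (⟨m, hm, rfl⟩ | hf) | ⟨e, he, rfl⟩
      · rw [List.mem_filter] at hm
        exact g4 m hm.1 (by simpa using hm.2)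
      · exact g5 f hf
      · simp only
        rcases fan he with ⟨rfl, _⟩ | ⟨t, ht, hV⟩ | ⟨s, hs, hO⟩ | ⟨s, t, hs⟩
        · rw [homH, homV, homO]; norm_num [det3]
        · have hm : e.2 ∈ S.path1 := hsub _ (by rw [ht]; simp)
          rw [homV, hV, homH, homv _ hm]; norm_num [det3]
        · have hm : e.1 ∈ S.path1 := hsub _ (by rw [hs]; simp)
          rw [homV, hO, homO, homv _ hm]
          have := (g0 _ hm).1
          simp only [det3]; linarith
        · have hm : e.1 ∈ S.path1 := hsub _ (by rw [hs]; simp)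
          have hm2 : e.2 ∈ S.path1 := hsub _ (by rw [hs]; simp)
          rw [homV, homv _ hm, homv _ hm2]
          have := hx s t _ _ hs
          simp only [det3]; linarith
  · intro u hu v hv huv
    have key : ∀ l : List Vx, (∃ s, S.path1 = s ++ l) →
        l.Pairwise (fun u v => ye S row ε v < ye S row ε u) := by
      intro l
      induction l with
      | nil => intro _; exact List.Pairwise.nil
      | cons a l ih =>
        rintro ⟨s, hs⟩
        have ih' := ih ⟨s ++ [a], by simp [hs]⟩
        rw [List.pairwise_cons]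
        refine ⟨?_, ih'⟩
        rcases l with _ | ⟨b, l⟩
        · simp
        · have hab := hy s l a b hs
          rw [List.pairwise_cons] at ih'
          intro c hc
          rcases List.mem_cons.1 hc with rfl | hc
          · exact hab
          · exact (ih'.1 c hc).trans hab
    have hP := key S.path1 ⟨[], rfl⟩
    have memp : ∀ w, w ∈ S.vs ∧ w ∉ Face.verts oF → w ∈ S.path1 := by
      rintro w ⟨hw, hwo⟩
      simp only [Slp.vs, List.mem_toFinset, List.mem_cons] at hw
      simp only [Face.verts, oF, Finset.mem_insert, Finset.mem_singleton, not_or] at hwo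
      tauto
    have hu1 := memp u hu
    have hv1 := memp v hv
    simp only [Prod.mk.injEq] at huv
    by_contra hne
    have hirr : ∀ a ∈ S.path1, ∀ b ∈ S.path1, a ≠ b → ye S row ε a ≠ ye S row ε b := by
      have h6 : S.path1.Pairwise (fun u v => ye S row ε u ≠ ye S row ε v) :=
        hP.imp (fun h => ne_of_gt h)
      have : Std.Symm (fun u v => ye S row ε u ≠ ye S row ε v) := ⟨fun _ _ h => Ne.symm h⟩
      exact fun a ha b hb hab => h6.forall ha hb hab
    exact hirr u hu1 v hv1 hne huv.2

end Pool.Agent.helper29.SGE
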